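import Mathlib
import Pool.Agent.Lib.MP_71509e_al.Defs
import Pool.Agent.Lib.MP_71509e_al.Proof

set_option autoImplicit false

namespace Pool.Agent.Results.MP_71509e_al.Characterisation

open Pool.Agent.Lib.MP_71509e_al

universe u v

/-- A poset `P` with no three-element chain order-embeds into a free lattice if and only if its
strict order relation is covered by a family of complete bipartite pieces `U < V` such that
every point of `P` lies in only finitely many pieces. -/
theorem result {P : Type u} [PartialOrder P] (hP : ∀ a b c : P, ¬ (a < b ∧ b < c)) :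
    (∃ (F : Type (max u v)) (_ : Lattice F) (X : Set F),
        IsFreeLatticeOn F X ∧ Nonempty (P ↪o F)) ↔
      ∃ 𝓕 : Set (Set P × Set P),
        (∀ C ∈ 𝓕, ∀ x ∈ C.1, ∀ y ∈ C.2, x < y) ∧
        (∀ x y : P, x < y → ∃ C ∈ 𝓕, x ∈ C.1 ∧ y ∈ C.2) ∧
        ∀ x : P, {C ∈ 𝓕 | x ∈ C.1 ∨ x ∈ C.2}.Finite := by
  constructor
  · rintro ⟨F, _, X, hX, ⟨φ⟩⟩
    exact forward hP hX φ
  · rintro ⟨𝓕, h1, h2, h3⟩
    exact ⟨FL (ULift.{v} (P ⊕ (Set P × Set P))), inferInstance, _, isFree _,
      backward hP 𝓕 h1 h2 h3⟩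

end Pool.Agent.Results.MP_71509e_al.Characterisation
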