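import Mathlib
import Pool.Agent.Lib.MP_71509e_al.Defs
import Pool.Agent.Lib.MP_71509e_al.Proof
import Pool.Agent.Lib.MP_71509e_al.OB.Defs
import Pool.Agent.Lib.MP_71509e_al.OB.Main

set_option autoImplicit false

namespace Pool.Agent.Results.MP_71509e_al.Obstruction

open Pool.Agent.Lib.MP_71509e_al Pool.Agent.Lib.MP_71509e_al.OB

universe u v

/-- A poset `P` with no three-element chain order-embeds into a free lattice if and only if it
has neither an uncountable half-crown nor a branchless list. -/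
theorem result {P : Type u} [PartialOrder P] (hP : ∀ a b c : P, ¬ (a < b ∧ b < c)) :
    (∃ (F : Type (max u v)) (_ : Lattice F) (X : Set F),
        IsFreeLatticeOn F X ∧ Nonempty (P ↪o F)) ↔
      ¬ HasHalfCrown P ∧ ¬ HasBranchlessList P := by
  rw [← cover_iff_no_obstruction, cover_iff_order hP]
  constructor
  · rintro ⟨F, _, X, hX, ⟨φ⟩⟩
    exact forward hP hX φ
  · rintro ⟨𝓕, h1, h2, h3⟩
    exact ⟨FL (ULift.{v} (P ⊕ (Set P × Set P))), inferInstance, _, isFree _,
      backward hP 𝓕 h1 h2 h3⟩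

/-- Consequence: singular compactness. -/
theorem singular_compactness {P : Type u} [PartialOrder P]
    (hP : ∀ a b c : P, ¬ (a < b ∧ b < c)) (h1 : Cardinal.aleph0 < Cardinal.mk P)
    (h2 : ¬ (Cardinal.mk P).IsRegular)
    (h : ∀ Q : Set P, Cardinal.mk Q < Cardinal.mk P →
      ∃ (F : Type (max u v)) (_ : Lattice F) (X : Set F),
        IsFreeLatticeOn F X ∧ Nonempty (Q ↪o F)) :
    ∃ (F : Type (max u v)) (_ : Lattice F) (X : Set F),
      IsFreeLatticeOn F X ∧ Nonempty (P ↪o F) := by
  rw [result hP, ← not_or]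
  intro h3
  obtain ⟨Q, hQ, h4⟩ := obstruction_small h1 h2 h3
  exact not_or.2 ((result (P := Q) fun a b c => hP a b c).1 (h Q hQ)) h4

end Pool.Agent.Results.MP_71509e_al.Obstruction
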